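import Pool.Agent.N471.ST.Peel
import Pool.Agent.TH253.GS.Main

/-!
# Polynomial bounds for graphs without half-graphs
-/

set_option autoImplicit false

namespace Pool.Agent.N471.ST

open Pool.Agent.H367R3 Pool.Agent.TH253.GS

universe u

theorem ladH_eq : ∀ t : ℕ, ladH t + 2 = 2 ^ (t + 1)
  | 0 => rfl
  | (t + 1) => by
      have h := ladH_eq t
      have h2 : ladH (t + 1) = (ladH t + 1) + (ladH t + 1) := rfl
      rw [h2, pow_succ 2 (t + 1)]
      omega

/-- the explicit bound, `k` is the clique number -/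
def bound (n m k : ℕ) : ℕ := ((8 * n + 5) * (m + k + 2)) ^ (2 ^ (2 ^ (2 * n + 2) - 2) - 1)

theorem stable_col {n m k : ℕ} (F : SimpleGraph (Fin m)) (hF : F.IsAcyclic) {V : Type u} [Finite V]
    (G : SimpleGraph V) (hG : ¬ HalfGraph G n) (hk : G.CliqueFree (k + 1))
    (hFG : ¬ Nonempty (F ↪g G)) : G.Colorable (bound n m k) := by
  obtain ⟨T, hT, ⟨e⟩⟩ := forest_in_tree F hF
  have hTG : ¬ Nonempty (T ↪g G) := fun ⟨g⟩ => hFG ⟨e.trans g⟩
  have hC : CC G (ladH (n + (n + 1))) 1 (Set.univ : Set V) := by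
    intro x _
    exact Cov.of_Sm (Sm_mono G (Set.subset_univ _) (Sm_univ_of_not_halfGraph G hG))
  obtain ⟨f, hf1, hf2⟩ := main_col T hT hG hk hTG _ 1 le_rfl Set.univ hC
  have hl : ladH (n + (n + 1)) = 2 ^ (2 * n + 2) - 2 := by
    have h := ladH_eq (n + (n + 1))
    have h2 : n + (n + 1) + 1 = 2 * n + 2 := by ring
    rw [h2] at h
    omega
  have hb : ((8 * n + 5) * (m + 1 + (k + 1)) * 1) ^ (2 ^ ladH (n + (n + 1)) - 1) = bound n m k := by
    unfold bound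
    rw [hl, mul_one]
    have h2 : m + 1 + (k + 1) = m + k + 2 := by ring
    rw [h2]
  rw [hb] at hf1
  refine ⟨SimpleGraph.Coloring.mk (fun x => (⟨f x, hf1 x (Set.mem_univ _)⟩ : Fin _)) ?_⟩
  intro x y hadj h
  exact hf2 x (Set.mem_univ _) y (Set.mem_univ _) hadj (congrArg Fin.val h)

theorem cliqueFree_succ {V : Type u} [Finite V] (G : SimpleGraph V) :
    G.CliqueFree (G.cliqueNum + 1) := by
  intro s hs
  have := hs.isClique.card_le_cliqueNum
  have h2 := hs.card_eq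
  omega

theorem stable_chi {n m : ℕ} (F : SimpleGraph (Fin m)) (hF : F.IsAcyclic) {V : Type u} [Finite V]
    (G : SimpleGraph V) (hG : ¬ HalfGraph G n) (hFG : ¬ Nonempty (F ↪g G)) :
    G.chromaticNumber ≤ (bound n m G.cliqueNum : ℕ) :=
  (stable_col F hF G hG (cliqueFree_succ G) hFG).chromaticNumber_le

theorem bound_le (n : ℕ) : ∃ A d : ℕ, ∀ m k : ℕ, 1 ≤ m → bound n m k ≤ A * (m + k) ^ d := by
  refine ⟨((8 * n + 5) * 3) ^ (2 ^ (2 ^ (2 * n + 2) - 2) - 1), 2 ^ (2 ^ (2 * n + 2) - 2) - 1, ?_⟩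
  intro m k hm
  unfold bound
  rw [← mul_pow]
  apply Nat.pow_le_pow_left
  rw [mul_assoc]
  apply Nat.mul_le_mul_left
  omega

/-- the common form -/
theorem main_classes_poly (n : ℕ) : ∃ A d : ℕ, ∀ (m : ℕ) (F : SimpleGraph (Fin m)), F.IsAcyclic →
    ∀ (V : Type) [Fintype V] (G : SimpleGraph V) (c : ℕ) (col : V → Fin c),
      (∀ i, ¬ HG (G.induce {v | col v = i}).Adj n) → ¬ Nonempty (F ↪g G) →
      G.chromaticNumber ≤ (c * (A * (m + G.cliqueNum) ^ d) : ℕ) := by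
  obtain ⟨A, d, hAd⟩ := bound_le n
  refine ⟨A, d, fun m F hF V _ G c col hG hFG => ?_⟩
  have hm : 1 ≤ m := by
    rcases Nat.eq_zero_or_pos m with h | h
    · subst h
      exact absurd ⟨⟨⟨fun i => i.elim0, fun i => i.elim0⟩, fun {i} => i.elim0⟩⟩ hFG
    · exact h
  apply SimpleGraph.Colorable.chromaticNumber_le
  apply colorable_of_classes G col
  intro i
  refine (stable_col F hF _ (hG i) (k := G.cliqueNum) ?_ ?_).mono (hAd m _ hm)
  · exact (cliqueFree_succ G).comap ⟨(SimpleGraph.Embedding.induce _).toCopy⟩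
  · rintro ⟨g⟩
    exact hFG ⟨g.trans (SimpleGraph.Embedding.induce _)⟩

/-- zero patterns of matrices of bounded rank, locally at every edge -/
theorem main_rank_poly (s r : ℕ) :
    ∃ A d : ℕ, ∀ (m : ℕ) (F : SimpleGraph (Fin m)), F.IsAcyclic →
    ∀ (V : Type) [Fintype V] (G P : SimpleGraph V) (c : ℕ), P.Colorable c →
      (∀ x y, G.Adj x y → ∃ (K : Fin s → Type) (_ : ∀ t, Field (K t)) (M : ∀ t, Matrix V V (K t))
        (φ : (Fin s → Prop) → Prop), (∀ t, (M t).rank ≤ r) ∧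
        ∀ u v, G.Adj y u → G.Adj x v → u ≠ v → ¬ P.Adj u v →
          (G.Adj u v ↔ φ fun t => M t u v = 0)) →
      ¬ Nonempty (F ↪g G) →
      G.chromaticNumber ≤ (c * (A * (m + G.cliqueNum) ^ d) : ℕ) := by
  obtain ⟨N, hN⟩ := boolean_stable.{0} (s + 2) (r + 2)
  obtain ⟨A, d, hf⟩ := main_classes_poly (N + 1)
  refine ⟨A, d, fun m F hF V _ G P c hP hloc hFG => ?_⟩
  obtain ⟨col⟩ := hP
  refine hf m F hF V G c col (fun i => ?_) hFG
  rintro ⟨a, b, hab⟩
  have hadj : ∀ j l, G.Adj (a j).1 (b l).1 ↔ j ≤ l := hab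
  obtain ⟨K, _, M, φ, hM, hA⟩ := hloc (a 0).1 (b (Fin.last N)).1 ((hadj _ _).2 (Fin.zero_le _))
  let W := {v : V // col v = i}
  let Q1 : W → Prop := fun u => G.Adj (b (Fin.last N)).1 u.1
  let Q2 : W → Prop := fun v => G.Adj (a 0).1 v.1
  let R : Fin (s + 2) → W → W → Prop :=
    Fin.cons (fun u _ => Q1 u) (Fin.cons (fun _ v => Q2 v) fun t u v => M t u.1 v.1 = 0)
  apply hN W R (fun ψ => ψ 0 ∧ ψ 1 ∧ φ fun t => ψ t.succ.succ)
    (fun u v => Q1 u ∧ Q2 v ∧ G.Adj u.1 v.1)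
  · intro t
    refine Fin.cases ?_ (fun t => ?_) t
    · exact unary_left Q1 (by omega)
    · refine Fin.cases ?_ (fun t => ?_) t
      · exact unary_right Q2 (by omega)
      · rintro ⟨a', b', h'⟩
        exact zero_stable (M t) r (hM t) ⟨fun j => (a' j).1, fun j => (b' j).1, h'⟩
  · exact fun v h => G.irrefl h.2.2
  · intro u v huv
    show Q1 u ∧ Q2 v ∧ G.Adj u.1 v.1 ↔ Q1 u ∧ Q2 v ∧ φ fun t => M t u.1 v.1 = 0
    constructor
    · rintro ⟨h1, h2, h3⟩
      refine ⟨h1, h2, (hA u.1 v.1 h1 h2 (fun h => huv (Subtype.ext h)) fun h => ?_).1 h3⟩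
      exact col.valid h (u.2.trans v.2.symm)
    · rintro ⟨h1, h2, h3⟩
      refine ⟨h1, h2, (hA u.1 v.1 h1 h2 (fun h => huv (Subtype.ext h)) fun h => ?_).2 h3⟩
      exact col.valid h (u.2.trans v.2.symm)
  · refine ⟨fun j => a j.castSucc, fun j => b j.castSucc, fun j l => ?_⟩
    constructor
    · rintro ⟨_, _, h⟩
      exact Fin.castSucc_le_castSucc_iff.1 ((hadj _ _).1 h)
    · intro h
      refine ⟨((hadj _ _).2 (Fin.le_last _)).symm, (hadj _ _).2 (Fin.zero_le _), (hadj _ _).2 ?_⟩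
      exact Fin.castSucc_le_castSucc_iff.2 h

/-- polynomials of bounded degree, locally at every edge -/
theorem main_poly_poly (s d D : ℕ) :
    ∃ A e : ℕ, ∀ (m : ℕ) (F : SimpleGraph (Fin m)), F.IsAcyclic →
    ∀ (V : Type) [Fintype V] (G P : SimpleGraph V) (c : ℕ), P.Colorable c →
      (∀ x y, G.Adj x y → ∃ (K : Type) (_ : Field K) (z : V → Fin d → K)
        (p : Fin s → MvPolynomial (Fin d ⊕ Fin d) K) (φ : (Fin s → Prop) → Prop),
        (∀ t, (p t).totalDegree ≤ D) ∧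
        ∀ u v, G.Adj y u → G.Adj x v → u ≠ v → ¬ P.Adj u v →
          (G.Adj u v ↔ φ fun t => MvPolynomial.eval (Sum.elim (z u) (z v)) (p t) = 0)) →
      ¬ Nonempty (F ↪g G) →
      G.chromaticNumber ≤ (c * (A * (m + G.cliqueNum) ^ e) : ℕ) := by
  obtain ⟨A, e, hf⟩ := main_rank_poly s ((D + 1) ^ d)
  refine ⟨A, e, fun m F hF V _ G P c hP hloc hFG => hf m F hF V G P c hP (fun x y hxy => ?_) hFG⟩
  obtain ⟨K, _, z, p, φ, hp, hA⟩ := hloc x y hxy
  exact ⟨fun _ => K, fun _ => inferInstance,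
    fun t => Matrix.of fun u v => MvPolynomial.eval (Sum.elim (z u) (z v)) (p t), φ,
    fun t => poly_rank z (p t) (hp t), hA⟩

end Pool.Agent.N471.ST
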