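import Pool.Agent.H367R3.GSForest

/-!
# Peeling instead of levels

In a set `A` in which all neighbourhoods are covered by `q` sets of rank at most `w + 1` the part
which lies in closed rich sets has few colours; removing this part `N` times costs only `N` times as
many colours, and then a tree with `N` edges embeds or no rich set is left.
-/

set_option autoImplicit false

namespace Pool.Agent.N471.ST

open Set Pool.Agent.H367R3

universe u

variable {V : Type u} {G : SimpleGraph V}

theorem col_mono {A : Set V} {c c' : ℕ} (h : Col G A c) (hc : c ≤ c') : Col G A c' := by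
  obtain ⟨f, h1, h2⟩ := h
  exact ⟨f, fun x hx => (h1 x hx).trans_le hc, h2⟩

theorem col_sub {A A' : Set V} {c : ℕ} (h : Col G A c) (hA : A' ⊆ A) : Col G A' c := by
  obtain ⟨f, h1, h2⟩ := h
  exact ⟨f, fun x hx => h1 x (hA hx), fun x hx y hy => h2 x (hA hx) y (hA hy)⟩

/-- Gluing colourings of two parts. -/
theorem col_add {A B C : Set V} {a b : ℕ} (hB : Col G B a) (hC : Col G C b) (hA : A ⊆ B ∪ C) :
    Col G A (a + b) := by
  classical
  obtain ⟨f, f1, f2⟩ := hB
  obtain ⟨g, g1, g2⟩ := hC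
  refine ⟨fun x => if x ∈ B then f x else a + g x, ?_, ?_⟩
  · intro x hx
    by_cases hxB : x ∈ B
    · simp only [hxB, if_true]
      have := f1 x hxB
      omega
    · simp only [hxB, if_false]
      have := g1 x ((hA hx).resolve_left hxB)
      omega
  · intro x hx y hy hadj
    by_cases hxB : x ∈ B
    · by_cases hyB : y ∈ B
      · simp only [hxB, hyB, if_true]
        exact f2 x hxB y hyB hadj
      · simp only [hxB, hyB, if_true, if_false]
        have := f1 x hxB
        omega
    · by_cases hyB : y ∈ B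
      · simp only [hxB, hyB, if_true, if_false]
        have := f1 y hyB
        omega
      · simp only [hxB, hyB, if_false]
        have := g2 x ((hA hx).resolve_left hxB) y ((hA hy).resolve_left hyB) hadj
        omega

/-- Removing the part of `A` in closed rich sets. -/
theorem peel [Finite V] {w q M n k c : ℕ} {A : Set V} (hG : ¬ HalfGraph G n)
    (hk : G.CliqueFree k) (hC : CC G (w + 1) q A) (hM : 2 * q + 1 ≤ M) (hM2 : n + n ≤ M)
    (hM3 : (q + 1) * n ≤ M) (hM4 : n + k ≤ M)
    (hcol : ∀ B : Set V, B ⊆ A → CC G w (q * M) B → Col G B c) :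
    ∃ B : Set V, B ⊆ A ∧ Col G (A \ B) ((q + 1) * c) ∧
      ∀ W ∈ P G w M n B 0, W ∈ P G w M n A 1 := by
  classical
  let good : V → Prop := fun y => ∃ W ∈ P G w M n A 0, Cov G w M (Ex (G := G) w M n A 0 W) ∧
    y ∈ W ∧ y ∉ Ex (G := G) w M n A 0 W
  have hchoice : ∀ y, ∃ W : Set V, good y → W ∈ P G w M n A 0 ∧ y ∈ W ∧
      y ∉ Ex (G := G) w M n A 0 W := by
    intro y
    by_cases hy : good y
    · obtain ⟨W, h1, _, h2, h3⟩ := hy
      exact ⟨W, fun _ => ⟨h1, h2, h3⟩⟩
    · exact ⟨∅, fun h => absurd h hy⟩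
  choose Wf hWf using hchoice
  -- colour the types
  have hfin : {τ : Set V | ∃ W ∈ P G w M n A 0, typ G w W = τ}.Finite := Set.toFinite _
  let ρ : Set V → Set V → Prop := fun τ τ' => ∃ W ∈ P G w M n A 0, ∃ W' ∈ P G w M n A 0,
    typ G w W = τ ∧ typ G w W' = τ' ∧ tt G w n W W'
  have hsym : ∀ a b, ρ a b → ρ b a := by
    rintro a b ⟨W, hW, W', hW', h1, h2, h3⟩
    exact ⟨W', hW', W, hW, h2, h1, tt_symm' hG hM2 hW hW' h3⟩
  have hirr : ∀ a, ¬ ρ a a := by
    rintro a ⟨W, hW, W', hW', h1, h2, h3⟩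
    apply not_tt_self hG hk hM2 hM4 hW
    unfold tt at h3 ⊢
    rw [h2, ← h1] at h3
    exact h3
  obtain ⟨κ, hκ1, hκ2⟩ := degree_color hfin.toFinset ρ hsym hirr q (by
    intro τ hτ
    rw [Set.Finite.mem_toFinset] at hτ
    obtain ⟨W0, hW0, rfl⟩ := hτ
    obtain ⟨F', hF'1, hF'2⟩ := obs2 hG hC hM hM2 hM3 hW0
    refine ⟨F', hF'1, ?_⟩
    rintro τ' _ ⟨W, hW, W', hW', h1, rfl, h3⟩
    apply hF'2 W' (P_subset_zero _ hW')
    have h4 : tt G w n W' W := tt_symm' hG hM2 hW hW' h3
    have h5 : tt G w n W' W0 := by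
      unfold tt at h4 ⊢
      rw [h1] at h4
      exact h4
    exact tt_symm' hG hM2 hW' hW0 h5)
  refine ⟨{y | y ∈ A ∧ ¬ good y}, fun y hy => hy.1, ?_, ?_⟩
  · -- the removed part
    refine Col.glue (fun y => κ (typ G w (Wf y))) ?_ ?_
    · rintro x ⟨hxA, hx⟩
      have hgx : good x := by
        by_contra hne
        exact hx ⟨hxA, hne⟩
      exact hκ1 _ (by
        rw [Set.Finite.mem_toFinset]
        exact ⟨Wf x, (hWf x hgx).1, rfl⟩)
    · intro j hj
      have hsubA : {x | x ∈ A \ {y | y ∈ A ∧ ¬ good y} ∧ κ (typ G w (Wf x)) = j} ⊆ A :=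
        fun _ h => h.1.1
      apply hcol _ hsubA
      apply CC_down (n := n) (fun x hx => (hC x (hsubA hx)).mono le_rfl
        (fun a ha => ⟨hsubA ha.1, ha.2⟩)) (by omega)
      rw [Set.eq_empty_iff_forall_notMem]
      intro W hW
      have hWA := P_mono hsubA 0 hW
      obtain ⟨_, hWr, x, hx, hxW⟩ := P_subset_zero _ hW
      obtain ⟨⟨hxA, hxg⟩, hxj⟩ := hx
      have hgx : good x := by
        by_contra hne
        exact hxg ⟨hxA, hne⟩
      obtain ⟨hx1, hx2, hx3⟩ := hWf x hgx
      have htx : tt G w n (Wf x) W := by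
        by_contra hne
        exact hx3 ⟨hxA, hx2, W, hWA, hxW, hne⟩
      have htx' : tt G w n W (Wf x) := tt_symm' hG hM2 hx1 hWA htx
      have hcov := tt_cov' hG hM2 hWA hx1 htx'
      obtain ⟨y, hy, hy2⟩ := exists_avoid hWr (hcov.mono (by omega : n ≤ M) le_rfl)
      obtain ⟨⟨⟨hyA, hyg⟩, hyj⟩, hyW⟩ := hy
      have hyt : y ∈ typ G w (Wf x) := by
        by_contra hne
        exact hy2 ⟨hyW, hne⟩
      have hgy : good y := by
        by_contra hne
        exact hyg ⟨hyA, hne⟩
      obtain ⟨hy1, hy2', hy3⟩ := hWf y hgy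
      have hty : tt G w n (Wf y) (Wf x) := by
        by_contra hne
        exact hy3 ⟨hyA, hy2', Wf x, hx1, hyt, hne⟩
      have := hκ2 (typ G w (Wf y)) (by
          rw [Set.Finite.mem_toFinset]
          exact ⟨Wf y, hy1, rfl⟩) (typ G w (Wf x)) (by
          rw [Set.Finite.mem_toFinset]
          exact ⟨Wf x, hx1, rfl⟩) ⟨Wf y, hy1, Wf x, hx1, rfl, rfl, hty⟩
      exact this (hyj.trans hxj.symm)
  · -- the rest
    intro W hW
    have hsubA : {y | y ∈ A ∧ ¬ good y} ⊆ A := fun _ h => h.1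
    have hWA := P_mono hsubA 0 hW
    refine ⟨hWA, ?_⟩
    intro hc
    apply rich_of_P hW
    refine hc.mono le_rfl ?_
    rintro y ⟨⟨hyA, hyg⟩, hyW⟩
    by_contra hne
    exact hyg ⟨W, hWA, hc, hyW, hne⟩

/-- Repeated peeling. -/
theorem peel_iter [Finite V] {w q M n k c : ℕ} {A : Set V} (hG : ¬ HalfGraph G n)
    (hk : G.CliqueFree k) (hC : CC G (w + 1) q A) (hM : 2 * q + 1 ≤ M) (hM2 : n + n ≤ M)
    (hM3 : (q + 1) * n ≤ M) (hM4 : n + k ≤ M)
    (hcol : ∀ B : Set V, B ⊆ A → CC G w (q * M) B → Col G B c) :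
    ∀ i : ℕ, ∃ B : Set V, B ⊆ A ∧ Col G (A \ B) (i * ((q + 1) * c)) ∧
      ∀ W ∈ P G w M n B 0, W ∈ P G w M n A i := by
  intro i
  induction i with
  | zero =>
    refine ⟨A, subset_rfl, ⟨fun _ => 0, ?_, ?_⟩, fun W hW => hW⟩
    · intro x hx
      exact absurd hx.1 hx.2
    · intro x hx
      exact absurd hx.1 hx.2
  | succ i ih =>
    obtain ⟨B, hBA, hBc, hBP⟩ := ih
    have hCB : CC G (w + 1) q B := fun x hx => (hC x (hBA hx)).mono le_rfl
      (fun a ha => ⟨hBA ha.1, ha.2⟩)
    obtain ⟨B', hB'B, hB'c, hB'P⟩ := peel hG hk hCB hM hM2 hM3 hM4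
      (fun S hS hCS => hcol S (hS.trans hBA) hCS)
    refine ⟨B', hB'B.trans hBA, ?_, ?_⟩
    · have h1 : (i + 1) * ((q + 1) * c) = i * ((q + 1) * c) + (q + 1) * c := by ring
      rw [h1]
      refine col_add hBc hB'c ?_
      rintro x ⟨hxA, hxB'⟩
      by_cases hxB : x ∈ B
      · exact Or.inr ⟨hxB, hxB'⟩
      · exact Or.inl ⟨hxA, hxB⟩
    · intro W hW
      have h1 := hB'P W hW
      refine ⟨hBP W h1.1, ?_⟩
      intro hc
      apply h1.2
      refine hc.mono le_rfl ?_
      rintro y ⟨hyB, hyW, W', hW', hy', htt⟩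
      exact ⟨hBA hyB, hyW, W', hBP W' hW', hy', htt⟩

/-- The main induction, with an explicit bound. -/
theorem main_col [Finite V] {n k N : ℕ} (T : SimpleGraph (Fin (N + 1))) (hT : T.IsTree)
    (hG : ¬ HalfGraph G n) (hk : G.CliqueFree k) (hTG : ¬ Nonempty (T ↪g G)) :
    ∀ w q : ℕ, 1 ≤ q → ∀ A : Set V, CC G w q A →
      Col G A (((8 * n + 5) * (N + 1 + k) * q) ^ (2 ^ w - 1)) := by
  intro w
  induction w with
  | zero =>
    intro q _ A hC
    refine ⟨fun _ => 0, fun _ _ => by simp, ?_⟩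
    intro x hx y hy hadj
    obtain ⟨F, _, h2, h3⟩ := hC x hx
    obtain ⟨U, hU, hyU⟩ := h3 y ⟨hy, hadj⟩
    have := Sm_zero G (h2 U hU)
    rw [this] at hyU
    exact absurd hyU (Set.notMem_empty y)
  | succ w ih =>
    intro q hq A hC
    set D := 8 * n + 5 with hD
    set X := N + 1 + k with hX
    have hX1 : 1 ≤ X := by omega
    set M := D * X * q with hMdef
    have hXq : X ≤ X * q := Nat.le_mul_of_pos_right _ hq
    have hqX : q ≤ X * q := Nat.le_mul_of_pos_left _ hX1
    have hMeq : M = 8 * (n * (X * q)) + 5 * (X * q) := by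
      rw [hMdef, hD]
      ring
    have hnXq : n ≤ n * (X * q) := Nat.le_mul_of_pos_right _ (by omega)
    have hnq : n * q ≤ n * (X * q) := Nat.mul_le_mul_left _ hqX
    have hM : 2 * q + 1 ≤ M := by omega
    have hM2 : n + n ≤ M := by omega
    have hM3 : (q + 1) * n ≤ M := by
      have : (q + 1) * n = n * q + n := by ring
      omega
    have hM4 : n + k ≤ M := by omega
    have hM5 : (N + 1) * (1 + q * n + (n + q * n)) ≤ M := by
      have h1 : (N + 1) * (1 + q * n + (n + q * n)) ≤ X * (q + q * n + (q * n + q * n)) := by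
        apply Nat.mul_le_mul (by omega)
        have : n ≤ q * n := Nat.le_mul_of_pos_left _ hq
        omega
      have h2 : X * (q + q * n + (q * n + q * n)) = X * q + 3 * (n * (X * q)) := by ring
      omega
    set c := ((D * X * (q * M)) ^ (2 ^ w - 1)) with hc
    have hqM : 1 ≤ q * M := Nat.mul_pos hq (by omega)
    have hcol : ∀ B : Set V, B ⊆ A → CC G w (q * M) B → Col G B c :=
      fun B _ hB => ih (q * M) hqM B hB
    obtain ⟨B, hBA, hBc, hBP⟩ := peel_iter hG hk hC hM hM2 hM3 hM4 hcol N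
    have hPN : P G w M n A N = ∅ := by
      by_contra hne
      have hne' : (P G w M n A (0 + N)).Nonempty := by
        rw [zero_add]
        exact Set.nonempty_iff_ne_empty.2 hne
      obtain ⟨φ, W, h1, h2, _, h4⟩ := embed_tree hG hk hC hM hM2 hM3 hM4 hM5 N (Fin (N + 1)) T hT
        (by simp) (by omega) 0 hne'
      apply hTG
      refine ⟨⟨⟨φ, ?_⟩, ?_⟩⟩
      · intro a b hab
        by_contra hne3
        have := h2 a b hne3
        rw [← hab] at this
        exact this (h1 a).2.2
      · intro a b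
        exact (h4 a b).symm
    have hPB : P G w M n B 0 = ∅ := by
      rw [Set.eq_empty_iff_forall_notMem]
      intro W hW
      have := hBP W hW
      rw [hPN] at this
      exact this
    have hCB : CC G (w + 1) q B := fun x hx => (hC x (hBA hx)).mono le_rfl
      (fun a ha => ⟨hBA ha.1, ha.2⟩)
    have hB := hcol B hBA (CC_down hCB (by omega) hPB)
    refine col_mono (col_add (A := A) hBc hB ?_) ?_
    · intro x hx
      by_cases hxB : x ∈ B
      · exact Or.inr hxB
      · exact Or.inl ⟨hx, hxB⟩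
    · have h1 : D * X * (q * M) = M ^ 2 := by
        rw [hMdef]
        ring
      have h2 : 2 ^ (w + 1) - 1 = 2 * (2 ^ w - 1) + 1 := by
        have : 1 ≤ 2 ^ w := Nat.one_le_two_pow
        rw [pow_succ]
        omega
      have h3 : c = M ^ (2 * (2 ^ w - 1)) := by
        rw [hc, h1, ← pow_mul]
      have h4 : N * ((q + 1) * c) + c ≤ M * c := by
        have h5 : N * ((q + 1) * c) + c = (N * (q + 1) + 1) * c := by ring
        rw [h5]
        apply Nat.mul_le_mul_right
        have h6 : N * (q + 1) + 1 ≤ X * (2 * q) := by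
          have h7 : N * (q + 1) + 1 ≤ (N + 1) * (2 * q) := by nlinarith
          exact h7.trans (Nat.mul_le_mul_right _ (by omega))
        have h8 : X * (2 * q) = 2 * (X * q) := by ring
        omega
      refine h4.trans (le_of_eq ?_)
      rw [h2, pow_succ, h3, hMdef]
      ring

end Pool.Agent.N471.ST
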